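import Pool.Agent.H87.AX.Targets4
import Pool.Agent.H27.SH.MON
import Pool.Agent.H35.SN.POH

/-!
# Axially symmetric harmonic maps: energy of balls (row ENB)
-/

set_option autoImplicit false

namespace Pool.Agent.H79.AX

open MeasureTheory Metric Set Filter Topology Pool.Agent.H87.SN Pool.Agent.H87.SH
open Pool.Agent.H87.AX
open scoped ContDiff RealInnerProductSpace ENNReal

open Pool.Agent.H27.SH (msq msq_cont msq_nonneg msq_le_one msq_zero supp_scale cont_scale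
  inner_bv bv_apply statF_eq phi_deriv)
open Pool.Agent.H39.SN (nsq_nonneg)
open Pool.Agent.H35.SN (nsq_integrable bd_ball)

theorem out_scale {n : ℕ} {a : E n} {ρ s : ℝ} (hs : 0 < s) (hsρ : s ≤ ρ)
    (hb : ball a ρ ⊆ ball 0 2) {y : E n} (hy : y ∉ ball (0 : E n) 2) :
    1 ≤ ‖s⁻¹ • (y - a)‖ := by
  rw [norm_smul, norm_inv, Real.norm_eq_abs, abs_of_pos hs, le_inv_mul_iff₀ hs]
  have h1 : y ∉ ball a ρ := fun h => hy (hb h)
  rw [mem_ball, dist_eq_norm] at h1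
  push Not at h1
  linarith

theorem int_scaleG {n : ℕ} {g f : E n → ℝ} (hg : Continuous g) (hg0 : ∀ v, 1 ≤ ‖v‖ → g v = 0)
    {a : E n} {r ρ : ℝ} (hr : 0 < r) (hρ : r ≤ ρ) (hb : ball a ρ ⊆ ball 0 2)
    (hf : Integrable f (volume.restrict (ball (0 : E n) 2))) :
    Integrable fun y => g (r⁻¹ • (y - a)) * f y := by
  have hsub : Function.support (fun y => g (r⁻¹ • (y - a)) * f y) ⊆ ball 0 2 := by
    intro y hy
    by_contra hne
    exact hy (by simp [hg0 _ (out_scale hr hρ hb hne)])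
  rw [← integrableOn_iff_integrable_of_support_subset hsub]
  obtain ⟨K, hK⟩ := bd_ball _ (cont_scale hg a r)
  refine Integrable.bdd_mul (c := K) hf (cont_scale hg a r).aestronglyMeasurable ?_
  rw [ae_restrict_iff' measurableSet_ball]
  exact Eventually.of_forall fun x hx => hK x hx

/-- the derivative of the integral -/
theorem int_derivG {n : ℕ} {f : E n → ℝ} {a : E n} {ρ r : ℝ} (hr : 0 < r) (hρ : r < ρ)
    (hb : ball a ρ ⊆ ball 0 2)
    (hφ : ContDiff ℝ 1 (phi (n := n)))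
    (hφ' : ∀ v w : E n, fderiv ℝ phi v w = - (6 * (max 0 (1 - ‖v‖ ^ 2)) ^ 2 * ⟪v, w⟫))
    (hφ0 : ∀ v : E n, 1 ≤ ‖v‖ → phi v = 0) (hf0 : ∀ y, 0 ≤ f y)
    (hf : Integrable f (volume.restrict (ball (0 : E n) 2))) :
    HasDerivAt (fun s : ℝ => ∫ y, phi (s⁻¹ • (y - a)) * f y)
      (∫ y, (6 * msq (r⁻¹ • (y - a)) * ‖r⁻¹ • (y - a)‖ ^ 2 * r⁻¹) * f y) r := by
  set S : Set ℝ := Ioo (r / 2) ρ with hS
  have hSn : S ∈ 𝓝 r := Ioo_mem_nhds (by linarith) hρ
  set B : E n → ℝ := (ball (0 : E n) 2).indicator fun y => 6 * (r / 2)⁻¹ * f y with hB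
  have hBi : Integrable B := by
    rw [hB, integrable_indicator_iff measurableSet_ball]
    exact hf.const_mul _
  have hmsq0 : ∀ v : E n, 1 ≤ ‖v‖ → 6 * msq v * ‖v‖ ^ 2 = 0 := by
    intro v hv
    rw [msq_zero hv]
    ring
  have hmc : Continuous fun v : E n => 6 * msq v * ‖v‖ ^ 2 := by
    have := msq_cont (n := n)
    fun_prop
  refine (hasDerivAt_integral_of_dominated_loc_of_deriv_le (bound := B)
    (F := fun s y => phi (s⁻¹ • (y - a)) * f y)
    (F' := fun s y => (6 * msq (s⁻¹ • (y - a)) * ‖s⁻¹ • (y - a)‖ ^ 2 * s⁻¹) * f y)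
    (s := S) hSn ?_ ?_ ?_ ?_ hBi ?_).2
  · filter_upwards [hSn] with s hs
    have hs0 : 0 < s := lt_trans (by linarith) hs.1
    exact (int_scaleG hφ.continuous hφ0 hs0 hs.2.le hb hf).aestronglyMeasurable
  · exact int_scaleG hφ.continuous hφ0 hr hρ.le hb hf
  · have h1 := (int_scaleG hmc hmsq0 hr hρ.le hb hf).const_mul r⁻¹
    refine h1.aestronglyMeasurable.congr (Eventually.of_forall fun y => ?_)
    show r⁻¹ * (6 * msq (r⁻¹ • (y - a)) * ‖r⁻¹ • (y - a)‖ ^ 2 * f y) =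
      (6 * msq (r⁻¹ • (y - a)) * ‖r⁻¹ • (y - a)‖ ^ 2 * r⁻¹) * f y
    ring
  · refine Eventually.of_forall fun y s hs => ?_
    have hs0 : 0 < s := lt_trans (by linarith) hs.1
    have hfy := hf0 y
    by_cases hy : y ∈ ball (0 : E n) 2
    swap
    · have h0 := hmsq0 _ (out_scale hs0 hs.2.le hb hy)
      show ‖(6 * msq (s⁻¹ • (y - a)) * ‖s⁻¹ • (y - a)‖ ^ 2 * s⁻¹) * f y‖ ≤ B y
      rw [h0, hB, indicator_of_notMem hy]
      simp
    set v : E n := s⁻¹ • (y - a) with hv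
    show ‖(6 * msq v * ‖v‖ ^ 2 * s⁻¹) * f y‖ ≤ B y
    rw [hB, indicator_of_mem hy]
    by_cases h1 : 1 ≤ ‖v‖
    · rw [hmsq0 v h1]
      simp only [zero_mul, norm_zero]
      positivity
    · push Not at h1
      rw [Real.norm_eq_abs, abs_of_nonneg]
      · refine mul_le_mul_of_nonneg_right ?_ hfy
        have h5 : s⁻¹ ≤ (r / 2)⁻¹ := inv_anti₀ (by positivity) hs.1.le
        have h6 : 6 * msq v * ‖v‖ ^ 2 ≤ 6 := by
          have h7 := msq_le_one v
          have h8 := msq_nonneg v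
          have h9 : ‖v‖ ^ 2 ≤ 1 := pow_le_one₀ (norm_nonneg _) h1.le
          have h10 : 0 ≤ ‖v‖ ^ 2 := by positivity
          nlinarith
        exact mul_le_mul h6 h5 (by positivity) (by norm_num)
      · have h8 := msq_nonneg v
        positivity
  · refine Eventually.of_forall fun y s hs => ?_
    have hs0 : 0 < s := lt_trans (by linarith) hs.1
    exact (phi_deriv hφ hφ' (y - a) hs0).mul_const _

/-- the radial part is integrable -/
theorem int_radial {n m : ℕ} {G : E n → E n →L[ℝ] E m} {a : E n} {ρ r : ℝ} (hr : 0 < r)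
    (hρ : r < ρ) (hb : ball a ρ ⊆ ball 0 2)
    (hG : MemLp G 2 (volume.restrict (ball (0 : E n) 2))) :
    Integrable fun y => msq (r⁻¹ • (y - a)) * ‖G y (r⁻¹ • (y - a))‖ ^ 2 := by
  have hlin : Continuous fun y : E n => r⁻¹ • (y - a) :=
    (continuous_id.sub continuous_const).const_smul r⁻¹
  have hsub : Function.support
      (fun y => msq (r⁻¹ • (y - a)) * ‖G y (r⁻¹ • (y - a))‖ ^ 2) ⊆ ball 0 2 := by
    intro y hy
    by_contra hne
    exact hy (by simp [msq_zero (out_scale hr hρ.le hb hne)])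
  rw [← integrableOn_iff_integrable_of_support_subset hsub]
  have h1 : Integrable (fun x => ‖G x‖ ^ 2) (volume.restrict (ball (0 : E n) 2)) :=
    hG.integrable_norm_pow (by norm_num)
  have hev : Continuous fun p : (E n →L[ℝ] E m) × E n => p.1 p.2 :=
    continuous_fst.clm_apply continuous_snd
  have hm : AEStronglyMeasurable (fun y => msq (r⁻¹ • (y - a)) * ‖G y (r⁻¹ • (y - a))‖ ^ 2)
      (volume.restrict (ball (0 : E n) 2)) := by
    refine AEStronglyMeasurable.mul (cont_scale msq_cont a r).aestronglyMeasurable ?_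
    have h2 := hev.comp_aestronglyMeasurable (hG.1.prodMk hlin.aestronglyMeasurable)
    exact h2.norm.pow 2
  refine Integrable.mono' h1 hm (Eventually.of_forall fun y => ?_)
  set w : E n := r⁻¹ • (y - a) with hw
  rw [Real.norm_eq_abs, abs_of_nonneg (mul_nonneg (msq_nonneg _) (by positivity))]
  by_cases h : 1 ≤ ‖w‖
  · rw [msq_zero h, zero_mul]
    positivity
  · push Not at h
    have h3 : ‖G y w‖ ≤ ‖G y‖ * ‖w‖ := (G y).le_opNorm w
    have h4 : ‖G y w‖ ≤ ‖G y‖ := by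
      have h0 := norm_nonneg (G y)
      nlinarith
    calc msq w * ‖G y w‖ ^ 2 ≤ 1 * ‖G y w‖ ^ 2 :=
          mul_le_mul_of_nonneg_right (msq_le_one w) (by positivity)
      _ ≤ ‖G y‖ ^ 2 := by
          rw [one_mul]
          exact pow_le_pow_left₀ (norm_nonneg _) h4 2

/-- the sign of the derivative, from stationarity -/
theorem signG {n m : ℕ} {G : E n → E n →L[ℝ] E m} {a : E n} {ρ r : ℝ}
    (hG : MemLp G 2 (volume.restrict (ball (0 : E n) 2))) (hS : Stat1 G)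
    (hr : 0 < r) (hρ : r < ρ) (hb : ball a ρ ⊆ ball 0 2)
    (hφ : ContDiff ℝ 1 (phi (n := n)))
    (hφ' : ∀ v w : E n, fderiv ℝ phi v w = - (6 * (max 0 (1 - ‖v‖ ^ 2)) ^ 2 * ⟪v, w⟫))
    (hφ0 : ∀ v : E n, 1 ≤ ‖v‖ → phi v = 0) :
    0 ≤ (2 - (n : ℝ)) * (∫ y, phi (r⁻¹ • (y - a)) * nsq (G y)) +
      ∫ y, (6 * msq (r⁻¹ • (y - a)) * ‖r⁻¹ • (y - a)‖ ^ 2) * nsq (G y) := by
  set X : E n → E n := fun y => phi (r⁻¹ • (y - a)) • (y - a) with hX
  have hlin : ContDiff ℝ 1 fun y : E n => r⁻¹ • (y - a) :=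
    (contDiff_id.sub contDiff_const).const_smul r⁻¹
  have hX1 : ContDiff ℝ 1 X := (hφ.comp hlin).smul (contDiff_id.sub contDiff_const)
  have hs1 := supp_scale hφ0 a hr
  have hXs : tsupport X ⊆ closedBall a r :=
    (tsupport_smul_subset_left (fun y => phi (r⁻¹ • (y - a))) (fun y : E n => y - a)).trans hs1
  have hXc : HasCompactSupport X :=
    (isCompact_closedBall a r).of_isClosed_subset (isClosed_tsupport _) hXs
  have h0 := hS X hX1 hXc ((hXs.trans (closedBall_subset_ball hρ)).trans hb)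
  have hD : ∀ y : E n, ∀ i j, (fderiv ℝ X y (bv i)) j =
      phi (r⁻¹ • (y - a)) * (if i = j then 1 else 0) -
        6 * msq (r⁻¹ • (y - a)) * ((r⁻¹ • (y - a)) i * (r⁻¹ • (y - a)) j) := by
    intro y i j
    have hd : HasFDerivAt (fun y : E n => r⁻¹ • (y - a)) (r⁻¹ • ContinuousLinearMap.id ℝ (E n)) y :=
      ((hasFDerivAt_id y).sub_const a).const_smul r⁻¹
    have hzd : HasFDerivAt phi (fderiv ℝ phi (r⁻¹ • (y - a))) (r⁻¹ • (y - a)) :=
      (hφ.differentiable (by norm_num)).differentiableAt.hasFDerivAt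
    have hcd := hzd.comp y hd
    have hyd : HasFDerivAt (fun y : E n => y - a) (ContinuousLinearMap.id ℝ (E n)) y :=
      (hasFDerivAt_id y).sub_const a
    have hXd := (hcd.smul hyd).fderiv
    have e : fderiv ℝ X y (bv i) = phi (r⁻¹ • (y - a)) • (bv i : E n) +
        (fderiv ℝ phi (r⁻¹ • (y - a)) (r⁻¹ • (bv i : E n))) • (y - a) := by
      have e1 : fderiv ℝ X y = _ := hXd
      rw [e1]
      rfl
    rw [e, hφ']
    show phi (r⁻¹ • (y - a)) * (bv i : E n) j +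
      - (6 * msq (r⁻¹ • (y - a)) * ⟪r⁻¹ • (y - a), r⁻¹ • (bv i : E n)⟫) * (y - a) j = _
    rw [bv_apply, real_inner_smul_right, inner_bv]
    have e2 : (r⁻¹ • (y - a)) j = r⁻¹ * (y - a) j := rfl
    rw [e2]
    ring
  have hst : ∀ y, statF (G y) (fderiv ℝ X y) =
      ((n : ℝ) - 2) * (phi (r⁻¹ • (y - a)) * nsq (G y)) -
        (6 * msq (r⁻¹ • (y - a)) * ‖r⁻¹ • (y - a)‖ ^ 2) * nsq (G y) +
        12 * (msq (r⁻¹ • (y - a)) * ‖G y (r⁻¹ • (y - a))‖ ^ 2) := by
    intro y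
    rw [statF_eq (G y) (fderiv ℝ X y) (phi (r⁻¹ • (y - a)))
      (6 * msq (r⁻¹ • (y - a))) (r⁻¹ • (y - a)) (hD y)]
    ring
  have hmsq0 : ∀ v : E n, 1 ≤ ‖v‖ → 6 * msq v * ‖v‖ ^ 2 = 0 := by
    intro v hv
    rw [msq_zero hv]
    ring
  have hmc : Continuous fun v : E n => 6 * msq v * ‖v‖ ^ 2 := by
    have := msq_cont (n := n)
    fun_prop
  have hN := nsq_integrable hG
  have iA : Integrable fun y => phi (r⁻¹ • (y - a)) * nsq (G y) :=
    int_scaleG hφ.continuous hφ0 hr hρ.le hb hN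
  have iB : Integrable fun y => (6 * msq (r⁻¹ • (y - a)) * ‖r⁻¹ • (y - a)‖ ^ 2) * nsq (G y) :=
    int_scaleG hmc hmsq0 hr hρ.le hb hN
  have iC : Integrable fun y => msq (r⁻¹ • (y - a)) * ‖G y (r⁻¹ • (y - a))‖ ^ 2 :=
    int_radial hr hρ hb hG
  have iAB : Integrable fun y => ((n : ℝ) - 2) * (phi (r⁻¹ • (y - a)) * nsq (G y)) -
      (6 * msq (r⁻¹ • (y - a)) * ‖r⁻¹ • (y - a)‖ ^ 2) * nsq (G y) := (iA.const_mul _).sub iB
  rw [integral_congr_ae (Eventually.of_forall hst), integral_add iAB (iC.const_mul 12),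
    integral_sub (iA.const_mul _) iB, integral_const_mul, integral_const_mul] at h0
  have h1 : 0 ≤ ∫ y, msq (r⁻¹ • (y - a)) * ‖G y (r⁻¹ • (y - a))‖ ^ 2 :=
    integral_nonneg fun y => mul_nonneg (msq_nonneg _) (by positivity)
  linarith

/-- monotonicity of the weighted energy -/
theorem monoG {d m : ℕ} {G : E (d + 2) → E (d + 2) →L[ℝ] E m} {a : E (d + 2)} {ρ : ℝ}
    (hPHI : T_PHI) (hG : MemLp G 2 (volume.restrict (ball (0 : E (d + 2)) 2))) (hS : Stat1 G)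
    (hb : ball a ρ ⊆ ball 0 2) :
    MonotoneOn (fun r : ℝ => r ^ (-(d : ℤ)) * ∫ y, phi (r⁻¹ • (y - a)) * nsq (G y))
      (Ioo 0 ρ) := by
  obtain ⟨hφ, -, hφ', -, -, -, hφ00, -⟩ := hPHI (d + 2)
  have hφ0 : ∀ v : E (d + 2), 1 ≤ ‖v‖ → phi v = 0 := fun v hv => (hφ00 v hv).1
  have hN := nsq_integrable hG
  set T : ℝ → ℝ := fun r => r ^ (-(d : ℤ)) * ∫ y, phi (r⁻¹ • (y - a)) * nsq (G y) with hT
  have hTd : ∀ r ∈ Ioo 0 ρ, HasDerivAt T (r ^ (-(d : ℤ) - 1) *
      ((2 - ((d + 2 : ℕ) : ℝ)) * (∫ y, phi (r⁻¹ • (y - a)) * nsq (G y)) +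
        ∫ y, (6 * msq (r⁻¹ • (y - a)) * ‖r⁻¹ • (y - a)‖ ^ 2) * nsq (G y))) r := by
    intro r hr
    have h1 := (hasDerivAt_zpow (-(d : ℤ)) r (Or.inl hr.1.ne')).mul
      (int_derivG hr.1 hr.2 hb hφ hφ' hφ0 (fun y => nsq_nonneg (G y)) hN)
    refine h1.congr_deriv ?_
    have e1 : (∫ y, (6 * msq (r⁻¹ • (y - a)) * ‖r⁻¹ • (y - a)‖ ^ 2 * r⁻¹) * nsq (G y)) =
        r⁻¹ * ∫ y, (6 * msq (r⁻¹ • (y - a)) * ‖r⁻¹ • (y - a)‖ ^ 2) * nsq (G y) := by
      rw [← integral_const_mul]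
      refine integral_congr_ae (Eventually.of_forall fun y => ?_)
      show (6 * msq (r⁻¹ • (y - a)) * ‖r⁻¹ • (y - a)‖ ^ 2 * r⁻¹) * nsq (G y) =
        r⁻¹ * ((6 * msq (r⁻¹ • (y - a)) * ‖r⁻¹ • (y - a)‖ ^ 2) * nsq (G y))
      ring
    rw [e1, zpow_sub_one₀ hr.1.ne']
    push_cast
    ring
  refine monotoneOn_of_deriv_nonneg (convex_Ioo 0 ρ)
    (fun r hr => (hTd r hr).continuousAt.continuousWithinAt) ?_ ?_
  · rw [interior_Ioo]
    exact fun r hr => (hTd r hr).differentiableAt.differentiableWithinAt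
  · rw [interior_Ioo]
    intro r hr
    rw [(hTd r hr).deriv]
    have h2 := signG hG hS hr.1 hr.2 hb hφ hφ' hφ0
    have h3 : 0 < r ^ (-(d : ℤ) - 1) := zpow_pos hr.1 _
    exact mul_nonneg h3.le h2

theorem pf_ENB (hPHI : T_PHI) : T_ENB := by
  intro d
  refine ⟨64 / 27 * (64 / 15) ^ d, by positivity, ?_⟩
  intro m G hG hS a r ha hr hr4
  obtain ⟨hφ, -, -, -, hφ1, -, hφ00, hφh, -⟩ := hPHI (d + 2)
  have hφ0 : ∀ v : E (d + 2), 1 ≤ ‖v‖ → phi v = 0 := fun v hv => (hφ00 v hv).1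
  have hN := nsq_integrable hG
  have hb : ball a (1 / 2) ⊆ ball (0 : E (d + 2)) 2 := by
    refine ball_subset_ball' ?_
    rw [dist_zero_right]
    linarith
  have hbr : ball a r ⊆ ball (0 : E (d + 2)) 2 := (ball_subset_ball (by linarith)).trans hb
  have hE0 : 0 ≤ ∫ x in ball (0 : E (d + 2)) 2, nsq (G x) :=
    integral_nonneg fun x => nsq_nonneg _
  have hI : ∫ x in ball a r, nsq (G x) ≤ ∫ x in ball (0 : E (d + 2)) 2, nsq (G x) :=
    setIntegral_mono_set hN (Eventually.of_forall fun x => nsq_nonneg _)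
      (HasSubset.Subset.eventuallyLE hbr)
  set En : ℝ := ∫ x in ball (0 : E (d + 2)) 2, nsq (G x) with hEn
  by_cases hc : 15 / 64 ≤ r
  · have h1 : (1 : ℝ) ≤ (64 / 15 * r) ^ d := one_le_pow₀ (by linarith)
    rw [mul_pow] at h1
    have h2 : 1 ≤ 64 / 27 * (64 / 15) ^ d * r ^ d := by nlinarith
    calc ∫ x in ball a r, nsq (G x) ≤ 1 * En := by rw [one_mul]; exact hI
      _ ≤ _ := mul_le_mul_of_nonneg_right h2 hE0
  · push Not at hc
    have hmono := monoG hPHI hG hS hb (a := a) (ρ := 1 / 2)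
    have hm := hmono (a := 2 * r) (b := 15 / 32) ⟨by linarith, by linarith⟩
      ⟨by norm_num, by norm_num⟩ (by linarith)
    have i1 : Integrable fun y => phi ((2 * r)⁻¹ • (y - a)) * nsq (G y) :=
      int_scaleG hφ.continuous hφ0 (by linarith) (by linarith : 2 * r ≤ 1 / 2) hb hN
    have i2 : Integrable fun y => phi ((15 / 32 : ℝ)⁻¹ • (y - a)) * nsq (G y) :=
      int_scaleG hφ.continuous hφ0 (by norm_num) (by norm_num : (15 / 32 : ℝ) ≤ 1 / 2) hb hN
    have h1 : 27 / 64 * ∫ x in ball a r, nsq (G x) ≤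
        ∫ y, phi ((2 * r)⁻¹ • (y - a)) * nsq (G y) := by
      rw [← integral_const_mul]
      calc ∫ x in ball a r, 27 / 64 * nsq (G x)
          ≤ ∫ x in ball a r, phi ((2 * r)⁻¹ • (x - a)) * nsq (G x) := by
            refine setIntegral_mono_on ((hN.mono_measure
              (Measure.restrict_mono hbr le_rfl)).const_mul _) i1.integrableOn
              measurableSet_ball fun x hx => ?_
            refine mul_le_mul_of_nonneg_right (hφh _ ?_) (nsq_nonneg _)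
            rw [norm_smul, norm_inv, Real.norm_eq_abs, abs_of_pos (by linarith : 0 < 2 * r),
              inv_mul_le_iff₀ (by linarith : 0 < 2 * r)]
            rw [mem_ball, dist_eq_norm] at hx
            linarith
        _ ≤ ∫ y, phi ((2 * r)⁻¹ • (y - a)) * nsq (G y) :=
            setIntegral_le_integral i1
              (Eventually.of_forall fun x => mul_nonneg (hφ1 _).1 (nsq_nonneg _))
    have h2 : ∫ y, phi ((15 / 32 : ℝ)⁻¹ • (y - a)) * nsq (G y) ≤ En := by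
      have e : ∫ y, phi ((15 / 32 : ℝ)⁻¹ • (y - a)) * nsq (G y) =
          ∫ y in ball (0 : E (d + 2)) 2, phi ((15 / 32 : ℝ)⁻¹ • (y - a)) * nsq (G y) := by
        refine (setIntegral_eq_integral_of_forall_compl_eq_zero fun y hy => ?_).symm
        rw [hφ0 _ (out_scale (by norm_num) (by norm_num : (15 / 32 : ℝ) ≤ 1 / 2) hb hy),
          zero_mul]
      rw [e, hEn]
      refine setIntegral_mono_on i2.integrableOn hN measurableSet_ball fun x _ => ?_
      have h3 := nsq_nonneg (G x)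
      have h4 := (hφ1 ((15 / 32 : ℝ)⁻¹ • (x - a))).2
      calc phi ((15 / 32 : ℝ)⁻¹ • (x - a)) * nsq (G x) ≤ 1 * nsq (G x) :=
            mul_le_mul_of_nonneg_right h4 h3
        _ = nsq (G x) := one_mul _
    set I1 : ℝ := ∫ x in ball a r, nsq (G x) with hI1
    set P1 : ℝ := ∫ y, phi ((2 * r)⁻¹ • (y - a)) * nsq (G y) with hP1
    set P2 : ℝ := ∫ y, phi ((15 / 32 : ℝ)⁻¹ • (y - a)) * nsq (G y) with hP2
    have hm' : (2 * r) ^ (-(d : ℤ)) * P1 ≤ (15 / 32 : ℝ) ^ (-(d : ℤ)) * P2 := hm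
    rw [zpow_neg, zpow_neg, zpow_natCast, zpow_natCast] at hm'
    have h5 : P1 ≤ (2 * r) ^ d * ((15 / 32 : ℝ) ^ d)⁻¹ * En := by
      have h6 : 0 < (2 * r) ^ d := by positivity
      have h7 : P1 = (2 * r) ^ d * (((2 * r) ^ d)⁻¹ * P1) := by
        field_simp
      rw [h7, mul_assoc]
      refine mul_le_mul_of_nonneg_left (hm'.trans ?_) h6.le
      exact mul_le_mul_of_nonneg_left h2 (by positivity)
    have h8 : (2 * r) ^ d * ((15 / 32 : ℝ) ^ d)⁻¹ = (64 / 15) ^ d * r ^ d := by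
      rw [← inv_pow, ← mul_pow, ← mul_pow]
      congr 1
      ring
    rw [h8] at h5
    nlinarith

end Pool.Agent.H79.AX
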